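import Pool.Agent.R903.Cancel

/-!
# Chow–Künneth decompositions and summands with local endomorphism rings

Let `X` and `Y` be in a class `𝒱` of smooth projective varieties over a field which is closed under
products, and suppose that `h(Y) = h(X)(m) ⊕ M_1 ⊕ ⋯ ⊕ M_r` in the category of Chow motives with
rational coefficients, where the ring of endomorphisms of each `M_j` is local. For example each
`M_j` can be a Lefschetz motive, or `h^1` of a simple abelian variety (its endomorphism ring is a
division algebra), or any indecomposable motive which is finite-dimensional in the sense of Kimura.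

* `Y` has a Chow–Künneth decomposition if and only if `X` has one and the cohomology of each `M_j`
  is concentrated in one degree.
* Hence if `h(X)(m) ⊕ M_1 ⊕ ⋯ ⊕ M_r ≅ h(Y) ≅ h(X')(m') ⊕ M'_1 ⊕ ⋯ ⊕ M'_s` with pure `M_j`, `M'_j` of
  this kind, then `X` has a Chow–Künneth decomposition if and only if `X'` has one.

The point is that nothing is assumed on `h(X)`: neither finite-dimensionality nor the vanishing of
correspondences between the summands. For example let `Y` be the blow-up of `X` along a point or a
smooth curve `Z`; then `h(Y)` is the direct sum of `h(X)` and of Tate twists of `h(Z)`, which is a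
direct sum of Lefschetz motives and of `h^1` of simple abelian varieties (Manin). So `Y` has a
Chow–Künneth decomposition if and only if `X` has one, and by weak factorization the existence of a
Chow–Künneth decomposition of a smooth projective threefold is a birational invariant (this example
is not formalized here).

Idea of the proof: let `Δ_Y = ∑ ρ_i` be a Chow–Künneth decomposition and `e` an idempotent with
local endomorphism ring. Since `e = ∑ e ρ_i e`, some `e ρ_i e` is invertible in `e A e`, with
inverse `u`. Then `q = ρ_i u ρ_i` is an idempotent with `q ρ_i = q = ρ_i q`, `g = u ρ_i` satisfies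
`g e = e`, `e g = g`, `q g = q`, `g q = g`, and so `1 - e`, `1 - g`, `1 - q` are isomorphic. This
carries the decomposition `1 - q = (ρ_i - q) + ∑_{j ≠ i} ρ_j` over to `1 - e`.
-/

open Pool.Agent.H914 Pool.Agent.R903

universe u v w

namespace Pool.Agent.Results.MP_524776_ag.Cancellation

theorem result {k : Type u} [Field k] {𝒱 : VarClass k} {C : ChowTheory.{u, v} 𝒱}
    (W : WeilTheory.{u, v, w} C) {X Y : 𝒱.Obj} {c c' : ℕ} {α : C.CH (X.prod Y)}
    {β : C.CH (Y.prod X)} {r : ℕ} {e : Fin r → C.CH (Y.prod Y)}
    (h : C.LocalComplement c c' α β e) :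
    (W.HasCK Y ↔ W.HasCK X ∧ ∀ j, W.IsPure (e j)) ∧
    ∀ (X' : 𝒱.Obj) (d d' : ℕ) (α' : C.CH (X'.prod Y)) (β' : C.CH (Y.prod X')) (s : ℕ)
      (e' : Fin s → C.CH (Y.prod Y)), C.LocalComplement d d' α' β' e' →
      (∀ j, W.IsPure (e j)) → (∀ j, W.IsPure (e' j)) → (W.HasCK X ↔ W.HasCK X') := by
  refine ⟨h.hasCK_iff, fun X' d d' α' β' s e' h' hp hp' => ?_⟩
  exact ⟨fun hX => h'.hasCK_left (h.hasCK_right hX hp),
    fun hX => h.hasCK_left (h'.hasCK_right hX hp')⟩

end Pool.Agent.Results.MP_524776_ag.Cancellation
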