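import Pool.Agent.R903.RegPow

/-!
# Chow–Künneth decompositions and the diagonals of linear sections

Let `X` be a smooth projective variety of dimension `n` over a field and let `D` be a divisor class
on `X`. The following are equivalent.

* `Δ_* D` is divisible by `(p_2^* D - p_1^* D)^2` in the Chow ring of `X × X`, with quotient in
  `CH^(n-1)(X × X)`; in other words, multiplication by `D` is part of an `sl₂`-triple of
  correspondences whose semisimple element is `∑ (j - n) π_j` for orthogonal idempotents `π_j`.
* For `1 ≤ c ≤ n`, the class `Δ_* (D^c)` is a multiple of `D^c × D^c` in the Chow ring of `X × X`.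
* The first condition holds for `f^* D` for some dominant `f : Y → X`.

If `i : Z → X` is a morphism such that `i_* 1` is a nonzero multiple of `D^c`, then `Δ_* (D^c)` is a
multiple of `D^c × D^c` if and only if the diagonal of `Z` is the restriction of a class on `X × X`
up to the kernel of `(i × i)_*`.

If `D` has the hard Lefschetz property for a Weil cohomology theory and the conditions hold, then
`X` has a Chow–Künneth decomposition.
-/

open Pool.Agent.H914 Pool.Agent.H914.VarClass Pool.Agent.H914.VarClass.Obj Pool.Agent.R903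

universe u v w

namespace Pool.Agent.Results.MP_524776_ag.RegularPowers

theorem result {k : Type u} [Field k] {𝒱 : VarClass k} (C : ChowTheory.{u, v} 𝒱) {X : 𝒱.Obj}
    {D : C.CH X} (hD : D ∈ C.gr X 1) :
    [C.Divisible D, ∀ c, 1 ≤ c → c ≤ X.dim → C.PowerDivisible D c,
      ∃ (Y : 𝒱.Obj) (f : Y ⟶ X), C.IsDominant f ∧ C.Divisible (C.pull f D)].TFAE ∧
    (∀ (c : ℕ) (Z : 𝒱.Obj) (i : Z ⟶ X), C.HasClass D c i →
      (C.PowerDivisible D c ↔ C.DiagonalExtends i)) ∧
    ∀ W : WeilTheory.{u, v, w} C, W.HardLefschetz (C.lef D) → C.Divisible D →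
      ∃ π : ℕ → C.CH (X.prod X), W.IsCK X π :=
  ⟨ChowTheory.tfae_divisible hD, fun _ _ _ hi => ChowTheory.powerDivisible_iff_extends hi,
    fun W hW h => by
      obtain ⟨Λ, π, hS⟩ := h.exists_system hD
      exact ⟨π, hS.isCK (ChowTheory.lef_mem hD) W hW⟩⟩

end Pool.Agent.Results.MP_524776_ag.RegularPowers
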