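import Pool.Agent.R368.Sep.Main

/-!
# Chow–Künneth decompositions from one correspondence which separates the degrees

Let `𝒱` be a class of smooth projective varieties over a field `k` which is closed under products
(for example all complex ones), with Chow groups `C` (rational coefficients) and a Weil cohomology
theory `W`, and `n = dim X`. A correspondence `g` in `CH^n(X × X)` *separates the degrees* if there
are pairwise coprime polynomials `χ_0, …, χ_(2n)` with rational coefficients such that `χ_j(g)` acts
as zero on `H^j(X)`: for example a lift of the degree operator, or the graph of a polarized
endomorphism of a complex variety (by a theorem of Serre the eigenvalues on `H^j` have absolute value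
`q^(j/2)`, `q > 1`).

1. If `g` separates the degrees and each homologically trivial correspondence in `CH^n(X × X)` which
   commutes with `g` is nilpotent, then `X` has a Chow–Künneth decomposition which consists of
   polynomials in `g`.
2. Let `f : X ⟶ X` be a morphism of degree `m` whose graph separates the degrees. If all homologically
   trivial `γ` in `CH^n(X × X)` with `(f × f)_* γ = m γ` are nilpotent (for example, if `m` is not an
   eigenvalue of `(f × f)_*` there) then `X` has a Chow–Künneth decomposition which consists of
   polynomials in the graph of `f`.
3. If Murre's conjectures (A) and (D) hold for the varieties of `𝒱` then no nonzero homologically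
   trivial correspondence commutes with a correspondence which separates the degrees. So the
   condition in 1 is a consequence of Murre's conjectures, for all `X` and all `g`.
-/

open Pool.Agent.H914 Pool.Agent.R903 Pool.Agent.R368

universe u v w

namespace Pool.Agent.Results.MP_524776_ag.SeparatingCorrespondences

theorem result {k : Type u} [Field k] {𝒱 : VarClass k} {C : ChowTheory.{u, v} 𝒱}
    (W : WeilTheory.{u, v, w} C) (hP : C.Polarized) :
    (∀ (X : 𝒱.Obj) g, Separates W X g → CommutantNil W X g → HasCKIn W X g) ∧
    (∀ (X : 𝒱.Obj) (f : X ⟶ X) (m : ℚ), HasDegree (C.push f) m → Separates W X (graphOf C f) →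
      EigenNil W X f m → HasCKIn W X (graphOf C f)) ∧
    ((∀ X : 𝒱.Obj, MurreAD W X) → ∀ (X : 𝒱.Obj) g, Separates W X g → CommutantZero W X g) :=
  ⟨fun _ _ => hasCKIn_of_commutant, fun _ f _ => hasCKIn_of_endomorphism f,
    fun h X _ hg => commutant_of_murre hP h X hg⟩

end Pool.Agent.Results.MP_524776_ag.SeparatingCorrespondences
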