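import Pool.Agent.R903.Summand

/-!
# Chow–Künneth decompositions of direct summands and of dominated varieties

Let `X` and `Y` be smooth projective varieties such that the motive of `X` is, up to a Tate twist, a
direct summand of the motive of `Y`, for example such that there is a surjective morphism `Y ⟶ X`.

* If `Y` has a Chow–Künneth decomposition with `Hom(h^a(Y), h^b(Y)) = 0` for all `a < b`, then `X`
  has a Chow–Künneth decomposition.
* If `Y` has a Chow–Künneth decomposition and `F^0 CH^(dim Y)(Y × Y)` is the same for all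
  Chow–Künneth decompositions of `Y × Y`, which is a special case of Murre's conjecture (C), then
  `X` has a Chow–Künneth decomposition, and Murre's conjecture (C) holds for `X`.
-/

open Pool.Agent.H914 Pool.Agent.R903

universe u v w

namespace Pool.Agent.Results.MP_524776_ag.SummandsAndDominatedVarieties

theorem result {k : Type u} [Field k] {𝒱 : VarClass k} {C : ChowTheory.{u, v} 𝒱}
    (W : WeilTheory.{u, v, w} C) (hP : C.Polarized) :
    (∀ X Y : 𝒱.Obj, C.Dominates Y X → C.IsSummand X Y) ∧
    (∀ X Y : 𝒱.Obj, C.IsSummand X Y → W.HasTriangularCK Y → W.HasCK X) ∧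
    ∀ X Y : 𝒱.Obj, C.IsSummand X Y → W.HasCK Y → W.Indep (Y.prod Y) Y.dim 0 →
      W.HasCK X ∧ W.MurreC X := by
  refine ⟨fun X Y h => h.isSummand,
    fun X Y hs ⟨ρ, hρ, hT⟩ => WeilTheory.hasCK_of_isSummand hs hρ hT,
    fun X Y hs ⟨ρ, hρ⟩ hI => ?_⟩
  have hT : W.Triangular Y := (hI.murreB0 hP).triangular
  have hN : W.NoPhantoms Y := hT.noPhantoms hP hρ
  have hTρ : C.IsTriangular ρ := hT ρ ρ hρ hρ
  obtain ⟨π, hπ⟩ := WeilTheory.hasCK_of_isSummand hs hρ hTρ
  obtain ⟨hNX, hTX⟩ := WeilTheory.triangular_of_isSummand hs hρ hTρ hN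
  exact ⟨⟨π, hπ⟩, hπ.murreC (hTX π hπ) hNX⟩

end Pool.Agent.Results.MP_524776_ag.SummandsAndDominatedVarieties
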